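import Mathlib

set_option autoImplicit false

/-! Counting the signed permutations which put a point into a signed order cone. -/

namespace Pool.Agent.U260.SB

variable {n : ℕ}

/-- signed coordinate -/
def sgf (x : Fin n → ℝ) (u : Fin n × Bool) : ℝ := if u.2 then -x u.1 else x u.1

/-- membership in the cone -/
def Mem (S : Fin n × Bool → Fin n × Bool → Prop) (x : Fin n → ℝ) : Prop :=
  ∀ u v, S u v → sgf x u ≤ sgf x v

/-- the action of signed permutations -/
def act (w : Equiv.Perm (Fin n) × (Fin n → Bool)) (x : Fin n → ℝ) : Fin n → ℝ :=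
  fun i => if w.2 i then -x (w.1 i) else x (w.1 i)

/-- same comparisons of the signed coordinates -/
def Same (x y : Fin n → ℝ) : Prop := ∀ u v, sgf x u ≤ sgf x v ↔ sgf y u ≤ sgf y v

theorem sgf_act (w : Equiv.Perm (Fin n) × (Fin n → Bool)) (x : Fin n → ℝ) (u : Fin n × Bool) :
    sgf (act w x) u = sgf x (w.1 u.1, xor u.2 (w.2 u.1)) := by
  obtain ⟨i, b⟩ := u
  cases b <;> cases h : w.2 i <;> simp [sgf, act, h]

theorem Same.act {x y : Fin n → ℝ} (h : Same x y) (w : Equiv.Perm (Fin n) × (Fin n → Bool)) :
    Same (act w x) (act w y) := by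
  intro u v
  rw [sgf_act, sgf_act, sgf_act, sgf_act]
  exact h _ _

theorem Same.mem {x y : Fin n → ℝ} (h : Same x y) (S : Fin n × Bool → Fin n × Bool → Prop) :
    Mem S x ↔ Mem S y :=
  forall_congr' fun u => forall_congr' fun v => imp_congr_right fun _ => h u v

theorem act_act (w w' : Equiv.Perm (Fin n) × (Fin n → Bool)) (x : Fin n → ℝ) :
    act w (act w' x) = act (w'.1 * w.1, fun i => xor (w.2 i) (w'.2 (w.1 i))) x := by
  funext i
  cases h : w.2 i <;> cases h' : w'.2 (w.1 i) <;> simp [act, h, h']

/-- translation by a fixed signed permutation -/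
def tr (w' : Equiv.Perm (Fin n) × (Fin n → Bool)) :
    Equiv.Perm (Fin n) × (Fin n → Bool) ≃ Equiv.Perm (Fin n) × (Fin n → Bool) where
  toFun w := (w'.1 * w.1, fun i => xor (w.2 i) (w'.2 (w.1 i)))
  invFun w := (w'.1⁻¹ * w.1, fun i => xor (w.2 i) (w'.2 ((w'.1⁻¹ * w.1) i)))
  left_inv w := by
    ext i
    · simp
    · simp
  right_inv w := by
    ext i
    · simp
    · simp

open Classical in
/-- the number of the signed permutations which put `x` into the cone -/
noncomputable def cnt (S : Fin n × Bool → Fin n × Bool → Prop) (x : Fin n → ℝ) : ℕ :=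
  (Finset.univ.filter fun w : Equiv.Perm (Fin n) × (Fin n → Bool) => Mem S (act w x)).card

theorem cnt_act (S : Fin n × Bool → Fin n × Bool → Prop) (w' : Equiv.Perm (Fin n) × (Fin n → Bool))
    (x : Fin n → ℝ) : cnt S (act w' x) = cnt S x := by
  classical
  unfold cnt
  refine Finset.card_equiv (tr w') fun w => ?_
  simp only [Finset.mem_filter, Finset.mem_univ, true_and]
  rw [act_act]
  exact Iff.rfl

theorem cnt_same (S : Fin n × Bool → Fin n × Bool → Prop) {x y : Fin n → ℝ} (h : Same x y) :
    cnt S x = cnt S y := by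
  classical
  unfold cnt
  congr 1
  ext w
  simp only [Finset.mem_filter, Finset.mem_univ, true_and]
  exact (h.act w).mem S

/-- the reference point -/
def ref (n : ℕ) : Fin n → ℝ := fun i => (i : ℝ) + 1

theorem cnt_eq (S : Fin n × Bool → Fin n × Bool → Prop) (x : Fin n → ℝ) (h0 : ∀ i, x i ≠ 0)
    (h : ∀ i j, i ≠ j → |x i| ≠ |x j|) : cnt S x = cnt S (ref n) := by
  set σ := Tuple.sort (fun i => |x i|) with hσ
  have hmono : Monotone ((fun i => |x i|) ∘ σ) := Tuple.monotone_sort _
  have hinj : Function.Injective ((fun i => |x i|) ∘ σ) := by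
    intro a b hab
    by_contra hne
    exact h (σ a) (σ b) (fun he => hne (σ.injective he)) hab
  have hsm : StrictMono ((fun i => |x i|) ∘ σ) := hmono.strictMono_of_injective hinj
  have hle : ∀ i j, |x i| ≤ |x j| ↔ ref n (σ.symm i) ≤ ref n (σ.symm j) := by
    intro i j
    have h1 := hsm.le_iff_le (a := σ.symm i) (b := σ.symm j)
    simp only [Function.comp_apply, Equiv.apply_symm_apply] at h1
    rw [h1]
    unfold ref
    rw [add_le_add_iff_right]
    exact_mod_cast Iff.rfl
  have hpos : ∀ i, 0 < |x i| := fun i => abs_pos.mpr (h0 i)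
  have hrpos : ∀ i, 0 < ref n i := fun i => by unfold ref; positivity
  let w : Equiv.Perm (Fin n) × (Fin n → Bool) := (σ.symm, fun i => decide (x i < 0))
  have hx : ∀ i, x i = if decide (x i < 0) = true then -|x i| else |x i| := by
    intro i
    by_cases hi : x i < 0
    · simp [hi, abs_of_neg hi]
    · simp [hi, abs_of_nonneg (not_lt.mp hi)]
  have hsame : Same x (act w (ref n)) := by
    intro u v
    obtain ⟨i, b⟩ := u
    obtain ⟨j, c⟩ := v
    have e1 : sgf x (i, b) = if xor b (decide (x i < 0)) = true then -|x i| else |x i| := by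
      have := hx i
      cases b
      · simpa [sgf] using this
      · show -x i = _
        by_cases hi : x i < 0
        · simp [hi, abs_of_neg hi]
        · simp [hi, abs_of_nonneg (not_lt.mp hi)]
    have e2 : sgf x (j, c) = if xor c (decide (x j < 0)) = true then -|x j| else |x j| := by
      have := hx j
      cases c
      · simpa [sgf] using this
      · show -x j = _
        by_cases hi : x j < 0
        · simp [hi, abs_of_neg hi]
        · simp [hi, abs_of_nonneg (not_lt.mp hi)]
    rw [sgf_act, sgf_act, e1, e2]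
    show _ ↔ (if xor b (decide (x i < 0)) = true then -ref n (σ.symm i) else ref n (σ.symm i)) ≤
      (if xor c (decide (x j < 0)) = true then -ref n (σ.symm j) else ref n (σ.symm j))
    have p1 := hpos i
    have p2 := hpos j
    have p3 := hrpos (σ.symm i)
    have p4 := hrpos (σ.symm j)
    have l1 := hle i j
    have l2 := hle j i
    cases xor b (decide (x i < 0)) <;> cases xor c (decide (x j < 0))
    · simpa using l1
    · simp only [Bool.false_eq_true, if_false, if_true]
      constructor <;> intro hh <;> linarith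
    · simp only [Bool.false_eq_true, if_false, if_true]
      constructor <;> intro hh <;> linarith
    · simpa using l2
  rw [cnt_same S hsame, cnt_act]

end Pool.Agent.U260.SB
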