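import Pool.Agent.H756.SB.Stm2
import Pool.Agent.U959.OC.Sym
import Pool.Agent.U260.SB.Cnt

/-!
# Functions invariant under signed permutations on signed order cones
-/

set_option autoImplicit false

namespace Pool.Agent.U260.SB

open MeasureTheory Set Filter Topology
open scoped ENNReal InnerProductSpace
open Pool.Agent.W695.KH (Eu)
open Pool.Agent.U959.OC
open Pool.Agent.H756.SB

variable {n : ℕ} {ρ : ℝ → ℝ}

theorem conE_meas (S : Fin n × Bool → Fin n × Bool → Prop) : MeasurableSet (conE S) := by
  have hm : ∀ u : Fin n × Bool, Measurable fun x : Eu (Fin n) => sg (fun i => x i) u := by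
    rintro ⟨i, b⟩
    cases b
    · show Measurable fun x : Eu (Fin n) => x i
      fun_prop
    · show Measurable fun x : Eu (Fin n) => -x i
      fun_prop
  have : conE S = ⋂ u, ⋂ v, ⋂ (_ : S u v),
      {x : Eu (Fin n) | sg (fun i => x i) u ≤ sg (fun i => x i) v} := by
    ext x; simp only [conE, mem_ofPred_eq, mem_iInter]
  rw [this]
  exact MeasurableSet.iInter fun u => MeasurableSet.iInter fun v => MeasurableSet.iInter fun _ =>
    measurableSet_le (hm u) (hm v)

/-- change of signs -/
theorem signE (e : Fin n → Bool) :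
    MeasurePreserving (fun x : Eu (Fin n) =>
      (WithLp.toLp 2 fun i => if e i then -x i else x i : Eu (Fin n))) volume volume := by
  have h1 := (PiLp.volume_preserving_ofLp (Fin n))
  have h3 := (PiLp.volume_preserving_toLp (Fin n))
  have h2 : MeasurePreserving (fun (x : Fin n → ℝ) i => (if e i then -x i else x i)) volume
      volume := by
    refine MeasureTheory.volume_preserving_pi (f := fun i (t : ℝ) => if e i then -t else t)
      fun i => ?_
    cases e i
    · exact MeasurePreserving.id volume
    · exact Measure.measurePreserving_neg volume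
  exact h3.comp (h2.comp h1)

/-- the signed permutation as a map of Euclidean space -/
noncomputable def actE (w : Equiv.Perm (Fin n) × (Fin n → Bool)) (x : Eu (Fin n)) : Eu (Fin n) :=
  WithLp.toLp 2 (act w fun i => x i)

theorem actE_mp (w : Equiv.Perm (Fin n) × (Fin n → Bool)) :
    MeasurePreserving (actE w) volume volume :=
  (signE w.2).comp (permE w.1)

theorem ae_fine : ∀ᵐ x : Eu (Fin n), (∀ i, x i ≠ 0) ∧ ∀ i j, i ≠ j → |x i| ≠ |x j| := by
  have h1 : ∀ᵐ x : Eu (Fin n), ∀ e : Fin n → Bool, ∀ i j, i ≠ j →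
      (if e i then -x i else x i) ≠ (if e j then -x j else x j) := by
    refine ae_all_iff.2 fun e => ?_
    have h2 := (signE e).quasiMeasurePreserving.ae (ae_good (n := n) ∅ Set.finite_empty)
    filter_upwards [h2] with x hx
    exact hx.2
  filter_upwards [h1, ae_good (n := n) {0} (Set.finite_singleton 0)] with x hx hx0
  refine ⟨fun i => by simpa using hx0.1 i, fun i j hij hab => ?_⟩
  rcases abs_eq_abs.1 hab with h | h
  · exact hx0.2 i j hij h
  · have := hx (fun k => decide (k = j)) i j hij
    simp only [hij, decide_false, decide_true, Bool.false_eq_true, if_false, if_true] at this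
    exact this h

open Classical in
/-- lower integrals of invariant functions over signed order cones -/
theorem symS (S : Fin n × Bool → Fin n × Bool → Prop) (H : Eu (Fin n) → ℝ≥0∞) (hH : Measurable H)
    (hs : ∀ (w : Equiv.Perm (Fin n) × (Fin n → Bool)) (x : Eu (Fin n)), H (actE w x) = H x) :
    (Fintype.card (Equiv.Perm (Fin n) × (Fin n → Bool)) : ℝ≥0∞) * ∫⁻ x in conE S, H x =
      (cnt S (ref n) : ℝ≥0∞) * ∫⁻ x, H x := by
  have hc := conE_meas (n := n) S
  have h0 : Measurable ((conE S).indicator H) := hH.indicator hc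
  calc (Fintype.card (Equiv.Perm (Fin n) × (Fin n → Bool)) : ℝ≥0∞) * ∫⁻ x in conE S, H x
      = ∑ _p : Equiv.Perm (Fin n) × (Fin n → Bool), ∫⁻ x in conE S, H x := by
        rw [Finset.sum_const, Finset.card_univ, nsmul_eq_mul]
    _ = ∑ p : Equiv.Perm (Fin n) × (Fin n → Bool), ∫⁻ x : Eu (Fin n), (conE S).indicator H
          (actE p x) := by
        refine Finset.sum_congr rfl fun p _ => ?_
        rw [(actE_mp p).lintegral_comp h0, lintegral_indicator hc]
    _ = ∫⁻ x : Eu (Fin n), ∑ p : Equiv.Perm (Fin n) × (Fin n → Bool), (conE S).indicator H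
          (actE p x) := by
        have hm : ∀ p ∈ (Finset.univ : Finset (Equiv.Perm (Fin n) × (Fin n → Bool))),
            Measurable fun x : Eu (Fin n) => (conE S).indicator H (actE p x) :=
          fun p _ => h0.comp (actE_mp p).measurable
        rw [lintegral_finsetSum _ hm]
    _ = ∫⁻ x : Eu (Fin n), (cnt S (ref n) : ℝ≥0∞) * H x := by
        refine lintegral_congr_ae ?_
        filter_upwards [ae_fine (n := n)] with x hx
        have h1 : ∀ p : Equiv.Perm (Fin n) × (Fin n → Bool), (conE S).indicator H (actE p x) =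
            if Mem S (act p fun i => x i) then H x else 0 := by
          intro p
          rw [indicator_apply, hs]
          rfl
        rw [Finset.sum_congr rfl fun p _ => h1 p, ← Finset.sum_filter, Finset.sum_const,
          nsmul_eq_mul]
        have h2 := cnt_eq S (fun i => x i) hx.1 hx.2
        rw [← h2]
        unfold cnt
        congr!
    _ = _ := by rw [lintegral_const_mul _ hH]

theorem t_SYM : S_SYM := by
  intro n ρ S h hev H hH hp he
  have hs : ∀ (w : Equiv.Perm (Fin n) × (Fin n → Bool)) (x : Eu (Fin n)), H (actE w x) = H x := by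
    intro w x
    have h1 : actE w x = (WithLp.toLp 2 fun i => if w.2 i then
        -(WithLp.toLp 2 fun i => x (w.1 i) : Eu (Fin n)) i else
        (WithLp.toLp 2 fun i => x (w.1 i) : Eu (Fin n)) i : Eu (Fin n)) := rfl
    rw [h1, he w.2, hp w.1]
  have hc := conE_meas (n := n) S
  have hd := dens_meas (n := n) h
  obtain ⟨w, hw⟩ : ∃ w : Eu (Fin n) → ℝ≥0∞, w = fun x => ∏ i, ENNReal.ofReal (ρ (x i)) := ⟨_, rfl⟩
  have hws : ∀ (p : Equiv.Perm (Fin n) × (Fin n → Bool)) (x : Eu (Fin n)), w (actE p x) = w x := by
    intro p x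
    rw [hw]
    have h1 : ∀ i, ENNReal.ofReal (ρ (actE p x i)) = ENNReal.ofReal (ρ (x (p.1 i))) := by
      intro i
      show ENNReal.ofReal (ρ (if p.2 i then -x (p.1 i) else x (p.1 i))) = _
      split_ifs
      · rw [hev]
      · rfl
    show (∏ i, ENNReal.ofReal (ρ (actE p x i))) = _
    rw [Finset.prod_congr rfl fun i _ => h1 i]
    exact Equiv.prod_comp p.1 fun i => ENNReal.ofReal (ρ (x i))
  have hiid : iid n ρ = volume.withDensity w := by rw [hw]; rfl
  rw [← hw] at hd
  have hpr := iid_prob (n := n) h
  have h1 : ∫⁻ x, w x = 1 := by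
    have := hpr.measure_univ
    rw [hiid, withDensity_apply _ MeasurableSet.univ, setLIntegral_univ] at this
    exact this
  have e1 := symS S (fun x => w x * H x) (hd.mul hH) fun p x => by rw [hws, hs]
  have e2 := symS S w hd hws
  rw [h1, mul_one] at e2
  rw [hiid, setLIntegral_withDensity_eq_setLIntegral_mul _ hd hH hc,
    lintegral_withDensity_eq_lintegral_mul _ hd hH, withDensity_apply _ hc]
  have hN : (Fintype.card (Equiv.Perm (Fin n) × (Fin n → Bool)) : ℝ≥0∞) ≠ 0 := by
    exact_mod_cast Fintype.card_ne_zero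
  have hN' : (Fintype.card (Equiv.Perm (Fin n) × (Fin n → Bool)) : ℝ≥0∞) ≠ ⊤ :=
    ENNReal.natCast_ne_top _
  rw [← e2] at e1
  have e3 : (Fintype.card (Equiv.Perm (Fin n) × (Fin n → Bool)) : ℝ≥0∞) *
        ∫⁻ x in conE S, (w * H) x =
      (Fintype.card (Equiv.Perm (Fin n) × (Fin n → Bool)) : ℝ≥0∞) *
        ((∫⁻ x in conE S, w x) * ∫⁻ x, (w * H) x) := by
    rw [← mul_assoc]
    exact e1
  exact (ENNReal.mul_right_inj hN hN').1 e3

end Pool.Agent.U260.SB
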